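import Pool.Agent.Helper32.BL.Defs
import Pool.Agent.Helper32.SD.Defs
import Pool.Agent.Helper1.S2.Count

/-!
# BL2: manifolds cut into right-angled blocks along a hierarchy, definitions
-/

open Finset

namespace Pool.Agent.Helper32.BL2

open Pool.Agent.Helper51.CD Pool.Agent.Helper51.CD.Cube Pool.Agent.Helper32.BL
open Pool.Agent.Helper1.S2 Pool.Agent.Helper32.SD

variable {X : Type}

/-- `T` is a simplicial complex (with the empty face) of dimension at most `2n - 1`, the links of
its nonempty faces are shellable spheres of the right dimension. -/
structure LocallyShellable {U : Type} [DecidableEq U] (n : ℕ) (T : Set (Finset U)) : Prop where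
  down : ∀ A ∈ T, ∀ B : Finset U, B ⊆ A → B ∈ T
  dim : ∀ A ∈ T, A.card ≤ 2 * n
  link : ∀ σ ∈ T, σ.Nonempty → ∃ (s : ℕ) (F R : ℕ → Finset U),
    Shelled σ (2 * n - σ.card) s F R ∧ ∀ A, σ ⊂ A → (A ∈ T ↔ ∃ j < s, A ⊆ F j)

/-- The condition on the nerve of a block of dimension `2n`. Either (`flag`) `n = 2` and the clique
complex of `H` is a flag triangulation of a closed 3-manifold (the link of every vertex is a
2-sphere); or (`barycentric`) the clique complex of `H` is the barycentric subdivision of a
triangulation `T` of a closed manifold of dimension `2n - 1` with shellable links. -/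
inductive Nerve {Y : Type} [Fintype Y] (H : SimpleGraph Y) (n : ℕ) : Prop
  | flag (hn : n = 2) (h : ∀ v, Sphere2 H (commonNbrs H {v})) : Nerve H n
  | barycentric (U : Type) [Fintype U] [DecidableEq U] (T : Set (Finset U))
      (hT : LocallyShellable n T) (φ : Y ↪ Finset U)
      (hφ : ∀ A, (∃ y, φ y = A) ↔ A ∈ T ∧ A.Nonempty)
      (hH : ∀ x y, H.Adj x y ↔ φ x ⊂ φ y ∨ φ y ⊂ φ x) : Nerve H n

open scoped Classical in
/-- `Piece G n chi r`: a right-angled block of dimension `2n` with nerve `G`, Euler characteristic
`chi` and excess `r`: for some `m > 0` there are a finite simplicial complex `K` with Euler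
characteristic `m * chi` and a subcomplex that is the clique complex of a graph `H` with `m` times
as many cliques of each size as `G` (for instance an `m`-fold covering of the block and its
boundary), the condition `Nerve` holds for `H`, and `r` is the excess of this pair divided by
`m`. -/
inductive Piece [Fintype X] (G : SimpleGraph X) (n : ℕ) (chi : ℤ) : ℚ → Prop
  | mk (m : ℕ) (hm : 0 < m) (Y Z : Type) [Fintype Y] [Nonempty Y] [LinearOrder Y] [Fintype Z]
      [LinearOrder Z] (H : SimpleGraph Y) (e : Y ↪o Z) (K : Set (Finset Z))
      (hK : ∀ τ ∈ K, ∀ σ : Finset Z, σ ⊆ τ → σ ∈ K)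
      (hHK : subCx H e ⊆ K)
      (hchi : ∑ τ : Finset Z with τ ∈ K ∧ τ.Nonempty, (-1 : ℤ) ^ (τ.card + 1) = m * chi)
      (hf : ∀ j, 0 < j → fnum H j = m * fnum G j)
      (hN : Nerve H n) :
      Piece G n chi ((excess H e K n : ℚ) / m)

open scoped Classical in
/-- A closed manifold of even dimension cut into right-angled blocks along a hierarchy (for
instance tiled by right-angled blocks), recorded by its strata. Every block is a compact manifold
whose boundary is divided into mirrors; the nonempty intersections of its mirrors are described by
the nonempty cliques of a finite graph `nerve b`, and the open face of a nonempty clique `σ` is an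
open cell of codimension `|σ|`. The union of the boundaries of the blocks is divided into pieces,
such that every open face is a disjoint union of pieces. A corner is a piece inside an open face of
a block. A block whose face `σ` contains a piece fills the part `2^(-|σ|)` of a small ball around a
point of that piece. -/
structure BlockComplex where
  /-- the blocks -/
  Block : Type
  /-- the pieces -/
  Part : Type
  /-- the corners -/
  Corner : Type
  finBlock : Fintype Block
  finPart : Fintype Part
  finCorner : Fintype Corner
  /-- the Euler characteristic of a block -/
  chi : Block → ℤ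
  /-- the Euler characteristic with compact supports of a piece (`(-1)^d` for an open cell of
  dimension `d`) -/
  chiPart : Part → ℤ
  /-- the mirrors (faces of codimension one) of a block -/
  Mirror : Block → Type
  finMirror : ∀ b, Fintype (Mirror b)
  /-- two mirrors of a block are adjacent when they intersect -/
  nerve : ∀ b, SimpleGraph (Mirror b)
  /-- the piece of a corner -/
  part : Corner → Part
  /-- the face of a corner -/
  face : Corner → (Σ b : Block, {σ : Finset (Mirror b) // σ.Nonempty ∧
      (nerve b).IsClique (σ : Set (Mirror b))})
  /-- the corners at a piece fill a ball -/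
  fill : ∀ q : Part, ∑ c : Corner with part c = q, (1 / 2 : ℚ) ^ (face c).2.1.card = 1
  /-- every open face is a cell and a disjoint union of pieces -/
  cell : ∀ f, ∑ c : Corner with face c = f, chiPart (part c) = (-1) ^ f.2.1.card

attribute [instance] BlockComplex.finBlock BlockComplex.finPart BlockComplex.finCorner
  BlockComplex.finMirror

/-- The Euler characteristic of a closed manifold of even dimension cut into blocks: the sum over
the blocks and the pieces (a block has the same Euler characteristic as its interior with compact
supports). -/
def BlockComplex.euler (X : BlockComplex) : ℤ :=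
  ∑ b : X.Block, X.chi b + ∑ q : X.Part, X.chiPart q

end Pool.Agent.Helper32.BL2
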