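import Pool.Agent.Helper32.BL.Manifold
import Pool.Agent.Helper32.BL2.Defs
import Pool.Agent.Helper32.SD.ChCM
import Pool.Agent.Helper1.S2.Target

/-!
# BL2: the inequality for flag 3-manifolds and for barycentric subdivisions
-/

open Finset Pool.Agent.Helper51.CD

namespace Pool.Agent.Helper32.BL2

open Pool.Agent.Helper51.CD.Cube Pool.Agent.Helper32.BL Pool.Agent.Helper1.S2
open Pool.Agent.Helper32.SD

variable {X : Type}

/-- The Charney-Davis inequality with Betti numbers, when the links of the odd cliques are good. -/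
theorem manifold_good [Fintype X] [Nonempty X] [LinearOrder X] (G : SimpleGraph X) (n : ℕ)
    (hdim : ∀ τ : Finset X, G.IsClique (τ : Set X) → τ.card ≤ 2 * n)
    (hT : ∀ ρ : Finset X, G.IsClique (ρ : Set X) → Odd ρ.card →
      HasK G {↑(cliquesIn G (commonNbrs G ρ))})
    (hL : ∀ ρ : Finset X, G.IsClique (ρ : Set X) → ρ.Nonempty → Even ρ.card →
      ∀ j : ℕ, 2 * j + ρ.card < 2 * n → ExactLink G ρ j) :
    0 ≤ (-1 : ℚ) ^ n * (kappa G univ - 1 + lowEuler G n) := by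
  classical
  have hcx : ∀ ρ : Finset X, IsCx G ↑(cliquesIn G (commonNbrs G ρ)) := by
    intro ρ
    refine ⟨fun τ hτ => (mem_cliquesIn.1 hτ).2, fun τ hτ π hπ => ?_⟩
    obtain ⟨h1, h2⟩ := mem_cliquesIn.1 hτ
    exact mem_cliquesIn.2 ⟨hπ.trans h1, h2.subset (by exact_mod_cast hπ)⟩
  obtain ⟨Fm, hF⟩ := hasK_all (G := G)
    (𝒮 := {A | ∃ ρ : Finset X, G.IsClique (ρ : Set X) ∧ Odd ρ.card ∧
      A = ↑(cliquesIn G (commonNbrs G ρ))})
    (by
      rintro A ⟨ρ, h1, h3, rfl⟩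
      exact hcx ρ)
    (by
      rintro A ⟨ρ, h1, h3, rfl⟩
      exact hT ρ h1 h3)
  have : FiniteDimensional ℚ Fm.V := Module.Finite.of_basis Fm.b
  have : Nontrivial Fm.V := ⟨⟨Fm.b (Classical.arbitrary Fm.ι), 0, Fm.b.ne_zero _⟩⟩
  have hs : IsSys G (Fm.s 1) := Fm.sys 1
  have hg : ∀ ρ : Finset X, G.IsClique (ρ : Set X) → Odd ρ.card → ∀ (S : Set X) (d : ℤ),
      ExAt (fam G ρ univ) (tw S (Fm.s 1)) d := by
    intro ρ h1 h3 S d
    have h4 := hF _ ⟨ρ, h1, h3, rfl⟩ S (d - ρ.card)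
    rw [core_fam] at h4
    have h5 := ex_star (van_isSys_tw hs S) ρ (commonNbrs G ρ) h1
      (fun x hx y hy => mem_commonNbrs.1 hx y hy) h4
    rw [sub_add_cancel, core_fam_univ] at h5
    exact h5
  have hcmp := compare hs n hdim hg (fun ρ h1 h2 h3 t ht h4 d hd =>
    const_ex ρ (commonNbrs G ρ) h1 (fun x => mem_commonNbrs) n (fun j hj f hf => by
      obtain ⟨g, hgg⟩ := hL ρ h1 h2 h3 j hj f (fun τ hτ hc =>
        hf τ (mem_cliquesIn.1 hτ).1 (mem_cliquesIn.1 hτ).2 hc)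
      exact ⟨g, fun τ h5 h6 h7 => hgg τ (mem_cliquesIn.2 ⟨h5, h6⟩) h7⟩) t ht h4 d hd)
  have hup := upper_rel hs n ∅ hdim (fun ρ h1 _ h3 => hg ρ h1 h3)
  set H : ℕ → ℤ := fun d => hd (fam G ∅ univ) (fun _ => (1 : Module.End ℚ Fm.V)) (d : ℤ) with hH
  have h0 := euler_defect (F := fam G ∅ univ) (van_ok hs ∅ univ) n H
    (fun S d hdn => ((hcmp S).1 d (by exact_mod_cast hdn)).symm) (fun S => (hcmp S).2)
    (fun S d hdn => hup ∅ (by simp) subset_rfl univ S d (by
      simp only [card_empty, Nat.cast_zero]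
      omega)) (cliquesIn G univ) (fun τ => by
      rw [mem_cliquesIn, eul_mem_fam]
      exact ⟨fun h => h.2, fun h => ⟨subset_univ _, h⟩⟩)
  have hH0 : H 0 = 0 := by
    rw [hH]
    change hd (fam G ∅ univ) (fun _ => (1 : Module.End ℚ Fm.V)) 0 = 0
    rw [hd_one, fam_eq, hd_zero (x := Classical.arbitrary X) (by
      change G.IsClique (({Classical.arbitrary X} : Finset X) : Set X)
      simp), mul_zero]
  have hHs : ∀ j : ℕ, H (j + 1) = Module.finrank ℚ Fm.V * betti (cliqueCx G) j := by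
    intro j
    rw [hH]
    change hd (fam G ∅ univ) (fun _ => (1 : Module.End ℚ Fm.V)) ((j + 1 : ℕ) : ℤ) = _
    rw [hd_one, fam_eq, hd_eq_betti]
  have e1 : ∑ d ∈ range (n + 1), (-1 : ℚ) ^ d * (H d : ℚ) =
      (Module.finrank ℚ Fm.V : ℚ) * (1 - lowEuler G n) := by
    rw [sum_range_succ', hH0]
    have : ∀ j ∈ range n, (-1 : ℚ) ^ (j + 1) * (H (j + 1) : ℚ) =
        (Module.finrank ℚ Fm.V : ℚ) * (-((-1 : ℚ) ^ j * betti (cliqueCx G) j)) := by
      intro j _
      rw [hHs]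
      push_cast
      ring
    rw [sum_congr rfl this, ← mul_sum]
    unfold lowEuler
    push_cast
    rw [sum_neg_distrib]
    ring
  rw [e1] at h0
  have hV : (0 : ℚ) < Module.finrank ℚ Fm.V := by
    have : 0 < Module.finrank ℚ Fm.V := Module.finrank_pos
    exact_mod_cast this
  change (-1 : ℚ) ^ n * ((Module.finrank ℚ Fm.V : ℚ) * (1 - lowEuler G n)) ≤
    (-1 : ℚ) ^ n * ((Module.finrank ℚ Fm.V : ℚ) * kappa G univ) at h0
  have h3 : 0 ≤ (Module.finrank ℚ Fm.V : ℚ) *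
      ((-1 : ℚ) ^ n * (kappa G univ - 1 + lowEuler G n)) := by
    have e2 : (Module.finrank ℚ Fm.V : ℚ) * ((-1 : ℚ) ^ n * (kappa G univ - 1 + lowEuler G n)) =
        (-1 : ℚ) ^ n * ((Module.finrank ℚ Fm.V : ℚ) * kappa G univ) -
        (-1 : ℚ) ^ n * ((Module.finrank ℚ Fm.V : ℚ) * (1 - lowEuler G n)) := by ring
    rw [e2]
    linarith
  exact nonneg_of_mul_nonneg_right h3 hV

/-- The inequality for the nerves with the property `Nerve`. -/
theorem nerve_cd {Y : Type} [Fintype Y] [Nonempty Y] [LinearOrder Y] {H : SimpleGraph Y} {n : ℕ}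
    (h : Nerve H n) : 0 ≤ (-1 : ℚ) ^ n * (kappa H univ - 1 + lowEuler H n) := by
  cases h with
  | flag hn h =>
    subst hn
    obtain ⟨h1, h2, h3⟩ := sphere2_target h
    exact manifold_good H 2 h1 (fun ρ h4 h5 => hasK_of_tame (h2 ρ h4 h5)) h3
  | barycentric U T hT φ hφ hH =>
    have hS : ShellableLinks n T := ⟨hT.down, hT.dim, fun σ hσ hodd =>
      hT.link σ hσ (card_pos.1 hodd.pos)⟩
    exact manifold_good H n (fun ρ hρ => links_dim hS φ hφ hH ρ hρ)
      (fun ρ hρ hodd => (links hS φ hφ hH ρ hρ hodd).2 _)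
      (fun ρ hρ hne _ j hj => exactLink_chain hT.dim hT.down hT.link φ hφ hH ρ hρ hne j (by omega))

theorem piece_sign [Fintype X] {G : SimpleGraph X} {n : ℕ} {chi : ℤ} {r : ℚ}
    (h : Piece G n chi r) : r ≤ (-1 : ℚ) ^ n * (chi + (kappa G univ - 1)) := by
  classical
  obtain ⟨m, hm, Y, Z, H, e, K, hK, hHK, hchi, hf, hN⟩ := h
  have h1 := nerve_cd hN
  rw [kappa_cover G H m hf] at h1
  have h2 := excess_le hHK n (univ.filter fun τ : Finset Z => τ ∈ K ∧ τ.Nonempty)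
    (fun τ => by simp)
  rw [hchi] at h2
  have h3 : ((excess H e K n : ℤ) : ℚ) ≤ (-1 : ℚ) ^ n * (m * chi - lowEuler H n) := by
    unfold lowEuler
    exact_mod_cast h2
  have hm' : (0 : ℚ) < m := by exact_mod_cast hm
  rw [div_le_iff₀ hm']
  have e : (-1 : ℚ) ^ n * (chi + (kappa G univ - 1)) * m =
      (-1 : ℚ) ^ n * (m * chi - lowEuler H n) +
      (-1 : ℚ) ^ n * (m * (kappa G univ - 1) + lowEuler H n) := by ring
  rw [e]
  linarith

open scoped Classical in
theorem BlockComplex.euler_eq (X : BlockComplex) :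
    (X.euler : ℚ) = ∑ b : X.Block, ((X.chi b : ℚ) + (kappa (X.nerve b) univ - 1)) := by
  have h1 : (∑ q : X.Part, (X.chiPart q : ℚ)) =
      ∑ c : X.Corner, (X.chiPart (X.part c) : ℚ) * (1 / 2 : ℚ) ^ (X.face c).2.1.card := by
    rw [← Finset.sum_fiberwise_of_maps_to (s := univ) (t := univ) (g := X.part)
      (fun c _ => mem_univ _)]
    refine sum_congr rfl fun q _ => ?_
    have h2 : ∑ c : X.Corner with X.part c = q, (X.chiPart (X.part c) : ℚ) *
        (1 / 2 : ℚ) ^ (X.face c).2.1.card =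
        ∑ c : X.Corner with X.part c = q, (X.chiPart q : ℚ) *
        (1 / 2 : ℚ) ^ (X.face c).2.1.card := by
      refine sum_congr rfl fun c hc => ?_
      rw [(mem_filter.1 hc).2]
    rw [h2, ← mul_sum, X.fill q, mul_one]
  have h3 : ∑ c : X.Corner, (X.chiPart (X.part c) : ℚ) * (1 / 2 : ℚ) ^ (X.face c).2.1.card =
      ∑ f : (Σ b : X.Block, {σ : Finset (X.Mirror b) // σ.Nonempty ∧
        (X.nerve b).IsClique (σ : Set (X.Mirror b))}), (-1 / 2 : ℚ) ^ f.2.1.card := by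
    rw [← Finset.sum_fiberwise_of_maps_to (s := univ) (t := univ) (g := X.face)
      (fun c _ => mem_univ _)]
    refine sum_congr rfl fun f _ => ?_
    have h2 : ∑ c : X.Corner with X.face c = f, (X.chiPart (X.part c) : ℚ) *
        (1 / 2 : ℚ) ^ (X.face c).2.1.card =
        ∑ c : X.Corner with X.face c = f, (X.chiPart (X.part c) : ℚ) *
        (1 / 2 : ℚ) ^ f.2.1.card := by
      refine sum_congr rfl fun c hc => ?_
      rw [(mem_filter.1 hc).2]
    have h4 : ∑ c : X.Corner with X.face c = f, (X.chiPart (X.part c) : ℚ) =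
        (-1) ^ f.2.1.card := by
      have := X.cell f
      exact_mod_cast this
    rw [h2, ← sum_mul, h4, ← mul_pow]
    norm_num
  unfold BlockComplex.euler
  push_cast
  rw [h1, h3, Fintype.sum_sigma, ← sum_add_distrib]
  refine sum_congr rfl fun b _ => ?_
  congr 1
  have h3 : kappa (X.nerve b) univ =
      ∑ τ ∈ (cliquesIn (X.nerve b) univ).erase ∅, (-1 / 2 : ℚ) ^ τ.card + 1 := by
    unfold kappa
    rw [← sum_erase_add _ _ (show ∅ ∈ cliquesIn (X.nerve b) univ by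
      rw [mem_cliquesIn]; simp)]
    simp
  rw [h3, add_sub_cancel_right]
  refine Finset.sum_bij (fun σ _ => σ.1) ?_ ?_ ?_ ?_
  · intro σ _
    rw [mem_erase, mem_cliquesIn]
    exact ⟨σ.2.1.ne_empty, subset_univ _, σ.2.2⟩
  · intro a _ b _ h
    exact Subtype.ext h
  · intro c hc
    rw [mem_erase, mem_cliquesIn] at hc
    exact ⟨⟨c, nonempty_iff_ne_empty.2 hc.1, hc.2.2⟩, mem_univ _, rfl⟩
  · intro σ _
    rfl

/-- **Hopf's inequality for manifolds cut into right-angled blocks.** -/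
theorem hopf_blocks (n : ℕ) (X : BlockComplex) (r : X.Block → ℚ)
    (h : ∀ b, Piece (X.nerve b) n (X.chi b) (r b)) :
    ∑ b, r b ≤ (-1) ^ n * X.euler := by
  rw [X.euler_eq, mul_sum]
  exact sum_le_sum fun b _ => piece_sign (h b)

end Pool.Agent.Helper32.BL2
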